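import Pool.Agent.R630.FJ.Mit

/-!
# Extensions in which powers of the conjugations are locally realized
-/

set_option autoImplicit false

namespace Pool.Agent.R630.LP

open Pool.Agent.Y110.FJ Pool.Agent.R630.FJ
open Pool.Agent.Y462.SS (Closed)

variable {G : Type} [Group G]

/-- the subgroup generated by the elements `g ^ i * x * g ^ (-i)`, `x ∈ E`, `i ≤ k` -/
def Seg (g : G) (E : Set G) (k : ℕ) : Subgroup G :=
  Subgroup.closure {y | ∃ i ≤ k, ∃ x ∈ E, y = g ^ i * x * (g ^ i)⁻¹}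

/-- conjugation by some positive power of `g` on the finite set `E` is realized in a group of `C` -/
def PowRealized (C : ∀ (G : Type) [Group G], Prop) (g : G) (E : Set G) : Prop :=
  ∃ (k : ℕ) (P : Type) (_ : Group P) (f : ↥(Seg g E k) →* P) (p : P), 0 < k ∧ C P ∧
    Function.Injective f ∧ ∀ x y : ↥(Seg g E k),
      (x : G) ∈ E → (y : G) = g ^ k * x * (g ^ k)⁻¹ → f y = p * f x * p⁻¹

theorem seg_conj (g : G) (E : Set G) (n : ℕ) (j : ℕ) (hj : j ≤ n) (y : G)
    (hy : y ∈ Subgroup.closure (E ∪ (fun x => g * x * g⁻¹) '' E)) :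
    g ^ j * y * (g ^ j)⁻¹ ∈ Seg g E (n + 1) := by
  have h1 : Subgroup.closure (E ∪ (fun x => g * x * g⁻¹) '' E) ≤
      (Seg g E (n + 1)).comap (MulAut.conj (g ^ j)).toMonoidHom := by
    rw [Subgroup.closure_le]
    rintro z (hz | ⟨x, hx, rfl⟩)
    · exact Subgroup.subset_closure ⟨j, by omega, z, hz, rfl⟩
    · refine Subgroup.subset_closure ⟨j + 1, by omega, x, hx, ?_⟩
      show g ^ j * (g * x * g⁻¹) * (g ^ j)⁻¹ = _
      rw [pow_succ]
      group
  exact h1 hy

section hom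

variable {P : Type} [Group P] (g : G) (E : Set G) (n : ℕ) (f : ↥(Seg g E (n + 1)) →* P)

/-- the homomorphism to the functions -/
def segHom : ↥(Subgroup.closure (E ∪ (fun x => g * x * g⁻¹) '' E)) →* (Fin (n + 1) → P) where
  toFun y := fun j => f ⟨g ^ (j : ℕ) * y * (g ^ (j : ℕ))⁻¹,
    seg_conj g E n j (by omega) y y.2⟩
  map_one' := by
    funext j
    have h1 : (⟨g ^ (j : ℕ) * ((1 : ↥(Subgroup.closure (E ∪ (fun x => g * x * g⁻¹) '' E))) : G) *
        (g ^ (j : ℕ))⁻¹, seg_conj g E n j (by omega) _ (one_mem _)⟩ : ↥(Seg g E (n + 1))) = 1 :=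
      Subtype.ext (by simp)
    exact (congrArg f h1).trans (map_one f)
  map_mul' := by
    intro x y
    funext j
    show f _ = f _ * f _
    rw [← map_mul]
    congr 1
    apply Subtype.ext
    show g ^ (j : ℕ) * ((x : G) * (y : G)) * (g ^ (j : ℕ))⁻¹ = (g ^ (j : ℕ) * x * (g ^ (j : ℕ))⁻¹) *
      (g ^ (j : ℕ) * y * (g ^ (j : ℕ))⁻¹)
    group

end hom

/-- **the criterion with powers** -/
theorem pow_crit {C : ∀ (G : Type) [Group G], Prop} (hC : ClosedE C) (N : Subgroup G) [N.Normal]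
    (hQ : C (G ⧸ N)) (h : ∀ (g : G) (E : Set G), E.Finite → E ⊆ N → PowRealized C g E) : C G := by
  refine crit C hC G N hQ fun g E hE hEN => ?_
  obtain ⟨k, P, _, f, p, hk, hP, hf, hfp⟩ := h g E hE hEN
  obtain ⟨n, rfl⟩ : ∃ n, k = n + 1 := ⟨k - 1, by omega⟩
  let ρ : Equiv.Perm (Fin (n + 1)) →* Equiv.Perm (Fin (n + 1)) := MonoidHom.id _
  let q : FW ρ P := ⟨fun j => if j = Fin.last n then p else 1, (shP n)⁻¹⟩
  refine ⟨FW ρ P, inferInstance, SemidirectProduct.inl.comp (segHom g E n f), q,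
    fw_fin_mem n hC hP, ?_, ?_⟩
  · refine SemidirectProduct.inl_injective.comp ?_
    intro x y hxy
    have h1 := congrFun hxy 0
    have h2 := hf h1
    have h3 := congrArg Subtype.val h2
    apply Subtype.ext
    simpa using h3
  · intro x y hx hy
    have hr : (q * SemidirectProduct.inl (segHom g E n f x) * q⁻¹).right = 1 := by
      rw [SemidirectProduct.mul_right, SemidirectProduct.mul_right, SemidirectProduct.inv_right,
        SemidirectProduct.right_inl, mul_one, mul_inv_cancel]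
    refine SemidirectProduct.ext ?_ ?_
    · funext i
      obtain ⟨j, rfl⟩ := (shP n)⁻¹.surjective i
      have h1 := fw_conj ρ (B := P) q (SemidirectProduct.inl (segHom g E n f x)) rfl j
      show segHom g E n f y ((shP n)⁻¹ j) = (q * SemidirectProduct.inl (segHom g E n f x) *
        q⁻¹).left (ρ q.right j)
      rw [h1]
      show segHom g E n f y ((shP n)⁻¹ j) =
        (if (shP n)⁻¹ j = Fin.last n then p else 1) * segHom g E n f x j *
          (if (shP n)⁻¹ j = Fin.last n then p else 1)⁻¹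
      rw [shP_inv]
      have h2 : ((j - 1 : Fin (n + 1)) : ℕ) = if j = 0 then n else (j : ℕ) - 1 :=
        Fin.coe_sub_one j
      by_cases hj : j = 0
      · have h3 : (j - 1 : Fin (n + 1)) = Fin.last n := by
          apply Fin.ext
          rw [h2, if_pos hj]
          rfl
        rw [if_pos h3, h3]
        show f _ = p * f _ * p⁻¹
        refine hfp _ _ ?_ ?_
        · show g ^ (j : ℕ) * (x : G) * (g ^ (j : ℕ))⁻¹ ∈ E
          rw [hj]
          simpa using hx
        · show g ^ ((Fin.last n : Fin (n + 1)) : ℕ) * (y : G) *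
            (g ^ ((Fin.last n : Fin (n + 1)) : ℕ))⁻¹ = g ^ (n + 1) *
              (g ^ (j : ℕ) * (x : G) * (g ^ (j : ℕ))⁻¹) * (g ^ (n + 1))⁻¹
          rw [hj, hy, Fin.val_last, pow_succ]
          simp only [Fin.val_zero, pow_zero]
          group
      · have h4 : (j : ℕ) ≠ 0 := fun h => hj (Fin.ext h)
        have h3 : (j - 1 : Fin (n + 1)) ≠ Fin.last n := by
          intro h5
          have h6 := congrArg Fin.val h5
          rw [h2, if_neg hj, Fin.val_last] at h6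
          have := j.2
          omega
        rw [if_neg h3, one_mul, inv_one, mul_one]
        show f _ = f _
        congr 1
        apply Subtype.ext
        show g ^ ((j - 1 : Fin (n + 1)) : ℕ) * (y : G) * (g ^ ((j - 1 : Fin (n + 1)) : ℕ))⁻¹ =
          g ^ (j : ℕ) * (x : G) * (g ^ (j : ℕ))⁻¹
        rw [h2, if_neg hj, hy]
        obtain ⟨m, hm⟩ : ∃ m, (j : ℕ) = m + 1 := ⟨(j : ℕ) - 1, by omega⟩
        rw [hm, Nat.add_sub_cancel, pow_succ]
        group
    · exact hr.symm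

/-- conjugations with powers which are locally inner -/
theorem inner {C : ∀ (G : Type) [Group G], Prop} (hC : ClosedE C) (N : Subgroup G) [N.Normal]
    (hN : C N) (hQ : C (G ⧸ N))
    (h : ∀ (g : G) (E : Set G), E.Finite → E ⊆ N → ∃ (k : ℕ) (n : G), 0 < k ∧ n ∈ N ∧
      ∀ x ∈ E, g ^ k * x * (g ^ k)⁻¹ = n * x * n⁻¹) : C G := by
  refine pow_crit hC N hQ fun g E hE hEN => ?_
  obtain ⟨k, n, hk, hn, hx⟩ := h g E hE hEN
  have hle : Seg g E k ≤ N := by
    unfold Seg
    rw [Subgroup.closure_le]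
    rintro y ⟨i, _, x, hx, rfl⟩
    exact Subgroup.Normal.conj_mem inferInstance x (hEN hx) _
  refine ⟨k, N, inferInstance, Subgroup.inclusion hle, ⟨n, hn⟩, hk, hN,
    Subgroup.inclusion_injective hle, ?_⟩
  intro x y hxE hy
  apply Subtype.ext
  show (y : G) = n * x * n⁻¹
  rw [hy, hx _ hxE]

/-- conjugations with finite orbits -/
theorem orbits {C : ∀ (G : Type) [Group G], Prop} (hC : ClosedE C) (N : Subgroup G) [N.Normal]
    (hN : C N) (hQ : C (G ⧸ N))
    (h : ∀ (g : G), ∀ x ∈ N, ∃ k : ℕ, 0 < k ∧ g ^ k * x = x * g ^ k) : C G := by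
  refine inner hC N hN hQ fun g E hE hEN => ?_
  have h1 : ∃ k : ℕ, 0 < k ∧ ∀ x ∈ E, Commute (g ^ k) x := by
    clear hQ
    induction E, hE using Set.Finite.induction_on with
    | empty => exact ⟨1, one_pos, fun x hx => absurd hx (Set.notMem_empty x)⟩
    | insert _ _ ih =>
      rename_i a s _ _
      obtain ⟨k, hk, h1⟩ := ih (fun x hx => hEN (Set.mem_insert_of_mem _ hx))
      obtain ⟨l, hl, h2⟩ := h g a (hEN (Set.mem_insert _ _))
      refine ⟨k * l, Nat.mul_pos hk hl, ?_⟩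
      rintro x (rfl | hx)
      · rw [mul_comm k l, pow_mul]
        exact Commute.pow_left h2 k
      · rw [pow_mul]
        exact Commute.pow_left (h1 x hx) l
  obtain ⟨k, hk, h2⟩ := h1
  refine ⟨k, 1, hk, N.one_mem, fun x hx => ?_⟩
  rw [(h2 x hx).eq]
  group

/-- directed unions -/
theorem dir_mem {C : ∀ (G : Type) [Group G], Prop} (hC : Closed C) (S : Set (Subgroup G))
    (hne : S.Nonempty) (hdir : ∀ A ∈ S, ∀ B ∈ S, ∃ D ∈ S, A ≤ D ∧ B ≤ D) (N : Subgroup G)
    (hle : ∀ A ∈ S, A ≤ N) (hun : ∀ x ∈ N, ∃ A ∈ S, x ∈ A) (h : ∀ A ∈ S, C A) : C N := by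
  have : Nonempty S := hne.to_subtype
  refine hC.colim S ?_ (fun A => ((A : Subgroup G) : Type)) (fun A B hAB => Subgroup.inclusion hAB) N
    (fun A => Subgroup.inclusion (hle A A.2)) ?_ ?_ ?_ ?_ ?_ (fun A => h A A.2)
  · rintro ⟨A, hA⟩ ⟨B, hB⟩
    obtain ⟨D, hD, h1, h2⟩ := hdir A hA B hB
    exact ⟨⟨D, hD⟩, h1, h2⟩
  · intro A _ x
    rfl
  · intro A B D _ _ x
    rfl
  · intro A B _ x
    rfl
  · rintro ⟨x, hx⟩
    obtain ⟨A, hA, hxA⟩ := hun x hx
    exact ⟨⟨A, hA⟩, ⟨x, hxA⟩, rfl⟩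
  · intro A x hx
    refine ⟨A, le_refl A, ?_⟩
    apply Subtype.ext
    exact congrArg (fun z : N => (z : G)) hx

/-- kernels with a directed system of subgroups with torsion outer automorphism groups -/
theorem torsion_out {C : ∀ (G : Type) [Group G], Prop} (hC : ClosedE C) (N : Subgroup G) [N.Normal]
    (hQ : C (G ⧸ N)) (S : Set (Subgroup G)) (hne : S.Nonempty)
    (hdir : ∀ A ∈ S, ∀ B ∈ S, ∃ D ∈ S, A ≤ D ∧ B ≤ D)
    (hle : ∀ A ∈ S, A ≤ N) (hun : ∀ x ∈ N, ∃ A ∈ S, x ∈ A) (hS : ∀ A ∈ S, C A)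
    (hout : ∀ A ∈ S, ∀ α : MulAut A, ∃ (k : ℕ) (a : A), 0 < k ∧ α ^ k = MulAut.conj a)
    (hnorm : ∀ g : G, ∀ A ∈ S, ∃ k : ℕ, 0 < k ∧ ∀ x : G, x ∈ A ↔ g ^ k * x * (g ^ k)⁻¹ ∈ A) :
    C G := by
  refine inner hC N (dir_mem hC.base S hne hdir N hle hun hS) hQ fun g E hE hEN => ?_
  -- a member containing `E`
  have hEA : ∃ A ∈ S, E ⊆ (A : Set G) := by
    clear hQ
    induction E, hE using Set.Finite.induction_on with
    | empty =>
      obtain ⟨A, hA⟩ := hne
      exact ⟨A, hA, Set.empty_subset _⟩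
    | insert _ _ ih =>
      rename_i a s _ _
      obtain ⟨A, hA, h1⟩ := ih (fun x hx => hEN (Set.mem_insert_of_mem _ hx))
      obtain ⟨B, hB, h2⟩ := hun a (hEN (Set.mem_insert _ _))
      obtain ⟨D, hD, h3, h4⟩ := hdir A hA B hB
      refine ⟨D, hD, ?_⟩
      rintro x (rfl | hx)
      · exact h4 h2
      · exact h3 (h1 hx)
  obtain ⟨A, hA, hEA⟩ := hEA
  obtain ⟨k, hk, hk'⟩ := hnorm g A hA
  let α : MulAut A :=
    { toFun := fun x => ⟨g ^ k * x * (g ^ k)⁻¹, (hk' x).1 x.2⟩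
      invFun := fun x => ⟨(g ^ k)⁻¹ * x * g ^ k, (hk' _).2 (by
        have h1 : g ^ k * ((g ^ k)⁻¹ * (x : G) * g ^ k) * (g ^ k)⁻¹ = x := by group
        rw [h1]
        exact x.2)⟩
      left_inv := fun x => Subtype.ext (by
        show (g ^ k)⁻¹ * (g ^ k * (x : G) * (g ^ k)⁻¹) * g ^ k = x
        group)
      right_inv := fun x => Subtype.ext (by
        show g ^ k * ((g ^ k)⁻¹ * (x : G) * g ^ k) * (g ^ k)⁻¹ = x
        group)
      map_mul' := fun x y => Subtype.ext (by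
        show g ^ k * ((x : G) * y) * (g ^ k)⁻¹ = (g ^ k * x * (g ^ k)⁻¹) * (g ^ k * y * (g ^ k)⁻¹)
        group) }
  have hα : ∀ x : A, ((α x : A) : G) = g ^ k * x * (g ^ k)⁻¹ := fun x => rfl
  have hαp : ∀ (l : ℕ) (x : A), (((α ^ l) x : A) : G) = g ^ (k * l) * x * (g ^ (k * l))⁻¹ := by
    intro l
    induction l with
    | zero =>
      intro x
      simp
    | succ l ih =>
      intro x
      rw [pow_succ', MulAut.mul_apply, hα, ih, Nat.mul_succ, Nat.add_comm (k * l) k, pow_add]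
      group
  obtain ⟨l, a, hl, ha⟩ := hout A hA α
  refine ⟨k * l, a, Nat.mul_pos hk hl, hle A hA a.2, fun x hx => ?_⟩
  have h1 := hαp l ⟨x, hEA hx⟩
  rw [ha, MulAut.conj_apply] at h1
  rw [← h1]
  rfl

end Pool.Agent.R630.LP
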